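import Mathlib

set_option autoImplicit false

namespace Pool.Agent.Results.MP_69956f_gt.Simplex

open Set Topology Filter

/-- scatteredly continuous functions -/
def ScatCont {X : Type} [TopologicalSpace X] (f : X → ℝ) : Prop :=
  ∀ A : Set X, A.Nonempty → ∃ a : A, ContinuousAt (fun x : A => f x) a

def C : Set (ℝ → ℝ) := {x | (∀ i, 0 ≤ x i) ∧ ∀ F : Finset ℝ, ∑ i ∈ F, x i ≤ 1}

lemma cpt : IsCompact C := by
  refine (isCompact_univ_pi fun _ => isCompact_Icc (a := (0 : ℝ)) (b := 1)).of_isClosed_subset ?_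
    fun x hx i _ => ⟨hx.1 i, by simpa using hx.2 {i}⟩
  simp only [C, ofPred_and, ofPred_forall]
  exact (isClosed_iInter fun i => isClosed_le continuous_const (continuous_apply i)).inter
    (isClosed_iInter fun F => isClosed_le (by fun_prop) continuous_const)

lemma fin {x : ℝ → ℝ} (hx : x ∈ C) (n : ℕ) : {i | 1 / ((n : ℝ) + 1) < x i}.Finite := by
  by_contra h
  obtain ⟨F, h1, h2⟩ := Set.Infinite.exists_subset_card_eq h (n + 2)
  have h3 := (Finset.card_nsmul_le_sum F x (1 / ((n : ℝ) + 1)) fun i hi => (h1 hi).le).trans (hx.2 F)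
  rw [h2, nsmul_eq_mul, mul_one_div, div_le_one (by positivity)] at h3
  push_cast at h3
  linarith

theorem result : ∃ K : Set ((ℕ → ℕ) → ℝ), (∀ f ∈ K, ScatCont f) ∧ IsCompact K ∧
    (∃ D : Set (ℝ → ℝ), IsCompact D ∧ Convex ℝ D ∧ Nonempty (K ≃ₜ D)) ∧
    ¬ TopologicalSpace.MetrizableSpace K := by
  classical
  obtain ⟨e⟩ : Nonempty ((ℕ → ℕ) ≃ ℝ) := Cardinal.eq.1 (by simp [Cardinal.mk_real])
  let Φ : C → (ℕ → ℕ) → ℝ := fun x t => max (x.1 (e fun n => t (n + 1)) - 1 / ((t 0 : ℝ) + 1)) 0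
  have : CompactSpace C := isCompact_iff_compactSpace.1 cpt
  have hc : Continuous Φ := continuous_pi fun t =>
    ((((continuous_apply _).comp continuous_subtype_val).sub continuous_const).max continuous_const)
  have hi : Function.Injective Φ := by
    have key : ∀ x y : C, Φ x = Φ y → ∀ i, ¬ x.1 i < y.1 i := by
      intro x y h i hi
      obtain ⟨n, hn⟩ := exists_nat_one_div_lt ((x.2.1 i).trans_lt hi)
      have := congrFun h fun k => Nat.casesOn k n (e.symm i)
      simp only [Φ, Equiv.apply_symm_apply, Nat.rec_zero] at this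
      rw [max_eq_left (sub_pos.2 hn).le] at this
      rcases max_cases (x.1 i - 1 / ((n : ℝ) + 1)) 0 with h | h <;> linarith
    exact fun x y h => Subtype.ext (funext fun i =>
      le_antisymm (not_lt.1 (key y x h.symm i)) (not_lt.1 (key x y h i)))
  have he := (hc.isClosedEmbedding hi).isEmbedding
  refine ⟨range Φ, ?_, isCompact_range hc, ⟨C, cpt, ?_, ⟨he.toHomeomorph.symm⟩⟩, fun H => ?_⟩
  · rintro _ ⟨x, rfl⟩ A ⟨a, ha⟩
    have hS : {t : ℕ → ℕ | t 0 = a 0 ∧ Φ x t ≠ 0}.Finite := by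
      refine ((fin x.2 (a 0)).image fun i k => Nat.casesOn k (a 0) (e.symm i)).subset ?_
      rintro t ⟨h1, h2⟩
      refine ⟨e fun n => t (n + 1), ?_, funext fun k => by cases k <;> simp [h1]⟩
      by_contra h
      exact h2 (max_eq_right (by rw [h1]; exact sub_nonpos.2 (not_lt.1 h)))
    have ho : IsOpen {t : ℕ → ℕ | t 0 = a 0} :=
      (isOpen_discrete {a 0}).preimage (continuous_apply (A := fun _ => ℕ) 0)
    have g : ∀ b : A, b.1 0 = a 0 → ∀ᶠ t : A in 𝓝 b, t.1 0 = a 0 ∧ (t = b ∨ Φ x t = 0) := by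
      intro b hb
      filter_upwards [continuous_subtype_val.continuousAt.preimage_mem_nhds (ho.mem_nhds hb),
        continuous_subtype_val.continuousAt.preimage_mem_nhds
          ((hS.subset (sdiff_subset (t := {b.1}))).isClosed.isOpen_compl.mem_nhds (by simp))] with t h1 h2
      refine ⟨h1, by_contra fun h => h2 ?_⟩
      rw [not_or] at h
      exact ⟨⟨h1, h.2⟩, fun e => h.1 (Subtype.ext e)⟩
    by_cases h : ∃ b : A, b.1 0 = a 0 ∧ Φ x b = 0
    · obtain ⟨b, h1, h2⟩ := h
      refine ⟨b, (continuousAt_const (y := (0 : ℝ))).congr ((g b h1).mono fun t ht => ?_)⟩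
      rcases ht.2 with rfl | h
      · exact h2.symm
      · exact h.symm
    · refine ⟨⟨a, ha⟩, (continuousAt_const (y := Φ x a)).congr ((g ⟨a, ha⟩ rfl).mono fun t ht => ?_)⟩
      rcases ht.2 with rfl | h'
      · rfl
      · exact absurd ⟨t, ht.1, h'⟩ h
  · intro x hx y hy s t hs ht hst
    refine ⟨fun i => add_nonneg (mul_nonneg hs (hx.1 i)) (mul_nonneg ht (hy.1 i)), fun F => ?_⟩
    simp only [Pi.add_apply, Pi.smul_apply, smul_eq_mul, Finset.sum_add_distrib, ← Finset.mul_sum]
    nlinarith [hx.2 F, hy.2 F]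
  · have := he.toHomeomorph.isEmbedding.metrizableSpace
    have h1 : ∀ i, (Pi.single i 1 : ℝ → ℝ) ∈ C := fun i => ⟨fun j => by
      rw [Pi.single_apply]; split_ifs <;> norm_num, fun F => by
      rw [Finset.sum_pi_single']; split_ifs <;> norm_num⟩
    have h0 : (0 : ℝ → ℝ) ∈ C := ⟨fun _ => le_rfl, fun F => by simp⟩
    have h2 : Tendsto (fun i => (⟨_, h1 i⟩ : C)) cofinite (𝓝 ⟨0, h0⟩) := by
      rw [tendsto_subtype_rng, tendsto_pi_nhds]
      refine fun j => tendsto_const_nhds.congr' ?_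
      filter_upwards [eventually_cofinite_ne j] with i hi
      simp [hi.symm]
    have h3 := h2.countable_compl_preimage_ker
    rw [ker_nhds] at h3
    refine Cardinal.not_countable_real (h3.mono fun i _ => mem_compl fun hi => ?_)
    simpa using congrFun (congrArg Subtype.val hi) i

end Pool.Agent.Results.MP_69956f_gt.Simplex
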